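import Pool.Agent.Lib.PQ.Main

set_option autoImplicit false

/-!
# Gaps of the `p`-energy on the isotopy classes of diffeomorphisms of the complex projective plane

`Diffh 2 F`, `IsotopicToId 2 F`: literally the hypotheses and the conclusion of S12917. `BallDiff B`: `B` is a diffeomorphism of `CP²` equal to the identity near a projective line, i.e. supported in a ball. A lift of `F` is a smooth map
`Φ : ℂ³ ∖ 0 → ℂ³ ∖ 0` which is homogeneous, has injective differentials (`HLoc Φ`) and induces `F`; a function `a` with `a x ≥ |(dΦ_x)⁻¹ ∘ D²Φ_x|` is a majorant of its connection (`ConnLe Φ a`). `eP p F` is the `p`-energy of `F`: the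
infimum, over the lifts `Φ` and the majorants `a`, of the integral of `a ^ p` over the unit ball; `mP p F` is its infimum over the smooth isotopy class of `F`.

`result`, second clause: if on one projective line the integral of `a ^ 2` is small, then `F` is isotopic to a ball-supported diffeomorphism. `Gap p N`: on the isotopy classes of the diffeomorphisms of `CP²` homotopic to the identity `mP p` is
finite, it vanishes exactly on the classes of the elements of `N`, and it is bounded below by a positive constant on all other classes. `Proper p N`: below every bound there are only finitely many classes modulo `N`. The gap holds for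
`2 ≤ p < 4` with the ball-supported diffeomorphisms and for `4 ≤ p < 6` with the identity, the finiteness for the same exponents except `p = 2`. (For `p ≥ 6` the energy of a map with non-zero connection is infinite, because the connection
is homogeneous of degree `-1`.)
-/

open MeasureTheory Metric
open scoped ENNReal

namespace Pool.Agent.Results.MP_28b04d_gt.EnergyJumps

open Pool.Agent.P28b04d Pool.Agent.Lib.P28g Pool.Agent.Lib.P28e Pool.Agent.Lib.P28c Pool.Agent.Lib.PJ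

/-- On the isotopy classes the `p`-energy is finite, it vanishes exactly on the classes of the elements of `N`, and it has a gap above zero. -/
structure Gap (p : ℝ) (N : (Mat 2 → Mat 2) → Prop) : Prop where
  finite : ∀ F : Mat 2 → Mat 2, Diffh 2 F → mP p F < ⊤
  zero : ∀ F : Mat 2 → Mat 2, Diffh 2 F → (mP p F = 0 ↔ ∃ B, N B ∧ Isotopic 2 F B)
  gap : ∃ ε : ℝ≥0∞, 0 < ε ∧ ∀ F : Mat 2 → Mat 2, Diffh 2 F → mP p F = 0 ∨ ε ≤ mP p F

/-- Below every bound of the `p`-energy there are only finitely many isotopy classes modulo `N`. -/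
def Proper (p : ℝ) (N : (Mat 2 → Mat 2) → Prop) : Prop :=
  ∀ E : ℝ≥0∞, E < ⊤ → ∃ S : Set (Mat 2 → Mat 2), S.Finite ∧ (∀ G ∈ S, Diffh 2 G) ∧
    ∀ F : Mat 2 → Mat 2, Diffh 2 F → mP p F ≤ E →
      ∃ G ∈ S, ∃ B, N B ∧ Isotopic 2 F fun P => G (B P)

/-- Q1: every diffeomorphism homotopic to the identity is isotopic to the identity. -/
def Q1 : Prop := ∀ F : Mat 2 → Mat 2, Diffh 2 F → IsotopicToId 2 F

theorem gap_ball {p : ℝ} (hp : 2 ≤ p) (hp4 : p < 4) : Gap p BallDiff where
  finite := fun F hF => by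
    rw [mP_eq (by linarith)]
    exact Pool.Agent.Lib.PQ.mE_lt_top6 (by linarith) (by linarith) hF
  zero := fun F _ => by
    rw [mP_eq (by linarith)]
    refine ⟨fun h => ?_, fun ⟨B, hB, hiso⟩ => mE_ball (by linarith) hp4 hB hiso⟩
    obtain ⟨ε, hε, hg⟩ := Pool.Agent.Lib.PQ.gap_ge hp
    exact hg F (by rw [h]; exact ENNReal.ofReal_pos.2 hε)
  gap := by
    obtain ⟨ε, hε, hg⟩ := Pool.Agent.Lib.PQ.gap_ge hp
    refine ⟨ENNReal.ofReal ε, ENNReal.ofReal_pos.2 hε, fun F _ => ?_⟩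
    rw [mP_eq (by linarith)]
    by_contra hcon
    push Not at hcon
    obtain ⟨B, hB, hiso⟩ := hg F hcon.2
    exact hcon.1 (mE_ball (by linarith) hp4 hB hiso)

theorem gap_id {p : ℝ} (hp : 4 ≤ p) (hp6 : p < 6) : Gap p fun B => B = id where
  finite := fun F hF => by
    rw [mP_eq (by linarith)]
    exact Pool.Agent.Lib.PQ.mE_lt_top6 (by linarith) hp6 hF
  zero := fun F hF => by
    rw [mP_eq (by linarith)]
    refine ⟨fun h => ?_, fun ⟨B, hB, hiso⟩ => ?_⟩
    · obtain ⟨ε, hε, hg⟩ := Pool.Agent.Lib.PQ.gap_ge4 hp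
      have h1 : Isotopic 2 id F := hg F hF (by rw [h]; exact ENNReal.ofReal_pos.2 hε)
      exact ⟨id, rfl, h1.symm⟩
    · rw [hB] at hiso
      have h1 : Isotopic 2 id F := hiso.symm
      exact mE_id (by linarith) h1
  gap := by
    obtain ⟨ε, hε, hg⟩ := Pool.Agent.Lib.PQ.gap_ge4 hp
    refine ⟨ENNReal.ofReal ε, ENNReal.ofReal_pos.2 hε, fun F hF => ?_⟩
    rw [mP_eq (by linarith)]
    by_contra hcon
    push Not at hcon
    exact hcon.1 (mE_id (by linarith) (hg F hF hcon.2))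

theorem proper_ball {p : ℝ} (hp : 2 < p) (hp4 : p < 4) : Proper p BallDiff := by
  intro E hE
  simp only [mP_eq (show 0 < p by linarith)]
  exact Pool.Agent.Lib.PJ.proper hp hp4 hE

theorem proper_id {p : ℝ} (hp : 4 ≤ p) : Proper p fun B => B = id := by
  intro E hE
  obtain ⟨S, h1, h2, h3⟩ := Pool.Agent.Lib.PQ.proper_ge4 hp hE
  refine ⟨S, h1, h2, fun F hF he => ?_⟩
  rw [mP_eq (by linarith)] at he
  obtain ⟨G, hG, hiso⟩ := h3 F hF he
  exact ⟨G, hG, id, rfl, hiso⟩

theorem line_gap : ∃ ε : ℝ≥0∞, 0 < ε ∧ ∀ (F : Mat 2 → Mat 2) (Φ : W 2 → W 2) (a : W 2 → ℝ),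
    Diffh 2 F → HLoc Φ → ConnLe Φ a → (∀ z : W 2, z ≠ 0 → F (pt z) = pt (Φ z)) →
    ∫⁻ x in ball (0 : W 1) 1, ENNReal.ofReal (a ![0, x 0, x 1]) ^ 2 < ε →
    ∃ B, BallDiff B ∧ Isotopic 2 F B := by
  obtain ⟨ε, hε, hg⟩ := Pool.Agent.Lib.PQ.plane_maj
  refine ⟨ENNReal.ofReal ε, ENNReal.ofReal_pos.2 hε, fun F Φ a hF hΦ ha hl he => ?_⟩
  exact hg F Φ a (injOn_of_isotopic (isotopic_refl hF)) hΦ ha hl he

theorem result :
    (∀ B : Mat 2 → Mat 2, BallDiff B → Diffh 2 B) ∧
    (∃ ε : ℝ≥0∞, 0 < ε ∧ ∀ (F : Mat 2 → Mat 2) (Φ : W 2 → W 2) (a : W 2 → ℝ),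
      Diffh 2 F → HLoc Φ → ConnLe Φ a → (∀ z : W 2, z ≠ 0 → F (pt z) = pt (Φ z)) →
      ∫⁻ x in ball (0 : W 1) 1, ENNReal.ofReal (a ![0, x 0, x 1]) ^ 2 < ε →
      ∃ B, BallDiff B ∧ Isotopic 2 F B) ∧
    (∀ p : ℝ, 2 ≤ p → p < 4 → Gap p BallDiff) ∧
    (∀ p : ℝ, 2 < p → p < 4 → Proper p BallDiff) ∧
    (∀ p : ℝ, 4 ≤ p → p < 6 → (Gap p fun B => B = id) ∧ Proper p fun B => B = id) ∧
    ∀ p : ℝ, 2 ≤ p → p < 4 →
      (Q1 ↔ (∀ F : Mat 2 → Mat 2, Diffh 2 F → mP p F = 0) ∧
        ∀ B : Mat 2 → Mat 2, BallDiff B → IsotopicToId 2 B) :=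
  ⟨fun _ hB => ball_diffh hB, line_gap, fun _ hp hp4 => gap_ball hp hp4,
    fun _ hp hp4 => proper_ball hp hp4, fun _ hp hp6 => ⟨gap_id hp hp6, proper_id hp⟩,
    fun p hp _ => by
      simp only [mP_eq (show 0 < p by linarith)]
      exact Pool.Agent.Lib.PQ.q1_iff2 hp⟩

end Pool.Agent.Results.MP_28b04d_gt.EnergyJumps
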