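import Pool.Agent.Lib.Qcd.Main

set_option autoImplicit false

/-!
# Quasiconformal diffeomorphisms of the complex projective plane

`ℂP²` is the set `CP 2` of rank-one Hermitian projections, as in S12917, `Tan P` its tangent space at `P`, on which the
squared Frobenius norm `frob` is a constant multiple of the squared Fubini-Study length. `QC K F`: at every point of `ℂP²`
the differential of `F` distorts the ratio of two lengths at most by the factor `K`.

There is `K₀ > 1` such that every diffeomorphism of `ℂP²` which is homotopic to the identity (the hypotheses of S12917)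
and `K₀`-quasiconformal is smoothly isotopic to the identity (the conclusion of S12917).
-/

open scoped ContDiff

namespace Pool.Agent.Results.MP_28b04d_gt.Quasiconformal

open Pool.Agent.P28b04d Pool.Agent.Lib.Psd Pool.Agent.Lib.Qcd

theorem result : ∃ K₀ : ℝ, 1 < K₀ ∧ ∀ F G : Mat → Mat,
    ContDiff ℝ (⊤ : ℕ∞) F → ContDiff ℝ (⊤ : ℕ∞) G →
    (∀ P ∈ CP 2, F P ∈ CP 2) → (∀ P ∈ CP 2, G P ∈ CP 2) →
    (∀ P ∈ CP 2, G (F P) = P) → (∀ P ∈ CP 2, F (G P) = P) →
    (∃ H : ℝ × Mat → Mat, ContinuousOn H (Set.Icc (0 : ℝ) 1 ×ˢ CP 2) ∧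
      (∀ t ∈ Set.Icc (0 : ℝ) 1, ∀ P ∈ CP 2, H (t, P) ∈ CP 2) ∧
      (∀ P ∈ CP 2, H (0, P) = P) ∧ ∀ P ∈ CP 2, H (1, P) = F P) →
    QC K₀ F → IsotopicToId 2 F :=
  main

end Pool.Agent.Results.MP_28b04d_gt.Quasiconformal
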