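import Pool.Agent.Lib.Shp.Amb

set_option autoImplicit false

/-!
# Pinched closed two-forms on the complex projective plane: the sharp constant

`ℂP²` is the set `CP 2` of rank-one Hermitian projections, as in S12917, `Tan P` its tangent space at `P`, `fs` the
Fubini-Study form. Every closed two-form in the class of `fs` is the restriction of `form β = fs + dβ` for a smooth one-form
`β` on the space of matrices. `PinchedM k Ω`: at every point the anti-self-dual part of `Ω` (for the Fubini-Study metric) is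
at most `k` times the self-dual part. `NondegM Ω`: `Ω` is non-degenerate on every tangent space of `ℂP²`.

For `k ≥ 0` the following are equivalent: `k ≤ 5 - 2 √6`; every closed two-form `w` in the class of the Fubini-Study form with
`|w⁻| ≤ k |w⁺|` at every point is symplectic; every such `w` is symplectic and joined to the Fubini-Study form by a smooth
path of symplectic forms in the same class; no such `w` vanishes at a point.
-/

open scoped ContDiff

namespace Pool.Agent.Results.MP_28b04d_gt.SharpPinching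

open Pool.Agent.P28b04d Pool.Agent.Lib.Psd Pool.Agent.Lib.Shp

theorem result (k : ℝ) (hk : 0 ≤ k) : List.TFAE [
    k ≤ 5 - 2 * Real.sqrt 6,
    ∀ β : Mat → Mat →L[ℝ] ℝ, ContDiff ℝ (⊤ : ℕ∞) β → PinchedM k (form β) → NondegM (form β),
    ∀ β : Mat → Mat →L[ℝ] ℝ, ContDiff ℝ (⊤ : ℕ∞) β → PinchedM k (form β) → NondegM (form β) ∧
      ∃ K : ℝ × Mat → Mat →L[ℝ] ℝ, ContDiff ℝ (⊤ : ℕ∞) K ∧
        (∀ P ∈ CP 2, ∀ Y ∈ Tan P, K (0, P) Y = β P Y) ∧
        (∀ P ∈ CP 2, ∀ Y ∈ Tan P, K (1, P) Y = 0) ∧
        ∀ t : ℝ, NondegM (form fun P => K (t, P)),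
    ∀ β : Mat → Mat →L[ℝ] ℝ, ContDiff ℝ (⊤ : ℕ∞) β → PinchedM k (form β) →
      ∀ P ∈ CP 2, ∃ Y ∈ Tan P, ∃ Z ∈ Tan P, form β P Y Z ≠ 0] :=
  sharp_tfae k hk

end Pool.Agent.Results.MP_28b04d_gt.SharpPinching
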